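import Pool.Agent.H97R2.LPB.Props

/-! # Gram determinants in the Lagrange basis -/

open Polynomial Filter Topology MeasureTheory Pool.Agent.H337R2 Pool.Agent.LP

namespace Pool.Agent.LPB

namespace Gram619

open Matrix in
/-- Hadamard's inequality. -/
theorem hadamard_ineq {d : ℕ} (M : Matrix (Fin d) (Fin d) ℝ) :
    M.det ^ 2 ≤ ∏ i, (M i ⬝ᵥ M i) := by
  let E := EuclideanSpace ℝ (Fin d)
  have : Fact (Module.finrank ℝ E = d) := ⟨by simp [E]⟩
  let b := EuclideanSpace.basisFun (Fin d) ℝ
  let o : Orientation ℝ E (Fin d) := b.toBasis.orientation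
  let v : Fin d → E := fun i => WithLp.toLp 2 (M i)
  have h1 := o.abs_volumeForm_apply_le v
  rw [o.volumeForm_robust' b v] at h1
  have h2 : b.toBasis.det v = M.det := by
    rw [Module.Basis.det_apply, ← Matrix.det_transpose]
    congr 1
  rw [h2] at h1
  have h3 : ∀ i, ‖v i‖ ^ 2 = M i ⬝ᵥ M i := by
    intro i
    rw [EuclideanSpace.norm_sq_eq]
    simp [v, dotProduct, sq]
  calc M.det ^ 2 = |M.det| ^ 2 := (sq_abs _).symm
    _ ≤ (∏ i, ‖v i‖) ^ 2 := by gcongr
    _ = ∏ i, ‖v i‖ ^ 2 := (Finset.prod_pow _ _ _).symm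
    _ = _ := by simp_rw [h3]

/-- the functional -/
noncomputable def Lw (w : ℝ → ℝ) (p : ℝ[X]) : ℝ := ∫ y : ℝ, p.eval y * w y

section

variable {w : ℝ → ℝ} (hw : Continuous w) (hpos : ∀ y, 0 < w y)
  (hint : ∀ q : ℝ[X], Integrable (fun y : ℝ => q.eval y * w y))

include hint in
theorem L_add (p q : ℝ[X]) : Lw w (p + q) = Lw w p + Lw w q := by
  unfold Lw
  rw [← integral_add (hint p) (hint q)]
  congr 1
  funext y
  rw [eval_add, add_mul]

theorem L_C_mul (c : ℝ) (p : ℝ[X]) : Lw w (C c * p) = c * Lw w p := by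
  unfold Lw
  rw [← integral_const_mul]
  congr 1
  funext y
  rw [eval_mul, eval_C, mul_assoc]

include hint in
theorem L_sub (p q : ℝ[X]) : Lw w (p - q) = Lw w p - Lw w q := by
  have h := L_add hint p (C (-1) * q)
  rw [L_C_mul] at h
  have e : p - q = p + C (-1) * q := by simp [sub_eq_add_neg]
  rw [e, h]
  ring

theorem L_zero : Lw w 0 = 0 := by simp [Lw]

include hint in
theorem L_sum {ι : Type} (s : Finset ι) (f : ι → ℝ[X]) : Lw w (∑ i ∈ s, f i) = ∑ i ∈ s, Lw w (f i) := by
  classical
  induction s using Finset.induction_on with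
  | empty => simp [L_zero]
  | insert a s ha ih => rw [Finset.sum_insert ha, Finset.sum_insert ha, L_add hint, ih]

include hw hpos hint in
theorem L_sq_pos {p : ℝ[X]} (hp : p ≠ 0) : 0 < Lw w (p * p) := by
  unfold Lw
  rw [integral_pos_iff_support_of_nonneg _ (hint _)]
  · have hcont : Continuous (fun y : ℝ => (p * p).eval y * w y) := (p * p).continuous.mul hw
    apply IsOpen.measure_pos volume (isOpen_ne_fun hcont continuous_const)
    by_contra hne
    rw [Set.not_nonempty_iff_eq_empty] at hne
    apply hp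
    apply Polynomial.funext
    intro y
    by_contra hy
    rw [eval_zero] at hy
    have : y ∈ {x : ℝ | (p * p).eval x * w x ≠ 0} := by
      show (p * p).eval y * w y ≠ 0
      rw [eval_mul]
      exact mul_ne_zero (mul_ne_zero hy hy) (hpos y).ne'
    rw [hne] at this
    exact this
  · intro y
    simp only [Pi.zero_apply, eval_mul]
    exact mul_nonneg (mul_self_nonneg _) (hpos y).le

include hw hpos hint in
/-- orthogonal monic polynomials -/
theorem exists_orth (m : ℕ) : ∃ q : ℕ → ℝ[X], (∀ i < m, (q i).Monic ∧ (q i).natDegree = i) ∧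
    ∀ i < m, ∀ j < i, Lw w (q i * q j) = 0 := by
  induction m with
  | zero => exact ⟨fun _ => 0, fun i hi => absurd hi (Nat.not_lt_zero i), fun i hi => absurd hi (Nat.not_lt_zero i)⟩
  | succ m ih =>
    obtain ⟨q, h1, h2⟩ := ih
    set s : ℝ[X] := ∑ j ∈ Finset.range m, C (Lw w (X ^ m * q j) / Lw w (q j * q j)) * q j with hs
    have hdeg : s.degree < m := by
      rw [← mem_degreeLT, hs]
      refine Submodule.sum_mem _ fun j hj => ?_
      have hj' := Finset.mem_range.1 hj
      rw [← smul_eq_C_mul]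
      refine Submodule.smul_mem _ _ (mem_degreeLT.2 ?_)
      rw [degree_eq_natDegree (h1 j hj').1.ne_zero, (h1 j hj').2]
      exact_mod_cast hj'
    have hX : (X ^ m : ℝ[X]).degree = m := degree_X_pow m
    have hmon : (X ^ m - s).Monic := (monic_X_pow m).sub_of_left (by rw [hX]; exact hdeg)
    have hnd : (X ^ m - s).natDegree = m := by
      have : (X ^ m - s).degree = ((m : ℕ) : WithBot ℕ) := by
        rw [degree_sub_eq_left_of_degree_lt (by rw [hX]; exact hdeg), hX]
      exact natDegree_eq_of_degree_eq_some this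
    have horth : ∀ j < m, Lw w ((X ^ m - s) * q j) = 0 := by
      intro j hj
      rw [sub_mul, L_sub hint, hs, Finset.sum_mul, L_sum hint]
      have h3 : ∀ i ∈ Finset.range m, Lw w (C (Lw w (X ^ m * q i) / Lw w (q i * q i)) * q i * q j) =
          if i = j then Lw w (X ^ m * q j) else 0 := by
        intro i hi
        have hi' := Finset.mem_range.1 hi
        rw [mul_assoc, L_C_mul]
        split_ifs with hij
        · subst hij
          have := L_sq_pos hw hpos hint (h1 i hi').1.ne_zero
          field_simp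
        · rcases lt_or_gt_of_ne hij with h | h
          · rw [mul_comm (q i) (q j), h2 j hj i h, mul_zero]
          · rw [h2 i hi' j h, mul_zero]
      rw [Finset.sum_congr rfl h3, Finset.sum_ite_eq' (Finset.range m) j, if_pos (Finset.mem_range.2 hj), sub_self]
    refine ⟨Function.update q m (X ^ m - s), ?_, ?_⟩
    · intro i hi
      rcases Nat.lt_succ_iff_lt_or_eq.1 hi with h | h
      · rw [Function.update_of_ne h.ne]
        exact h1 i h
      · subst h
        rw [Function.update_self]
        exact ⟨hmon, hnd⟩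
    · intro i hi j hj
      rcases Nat.lt_succ_iff_lt_or_eq.1 hi with h | h
      · rw [Function.update_of_ne h.ne, Function.update_of_ne (hj.trans h).ne]
        exact h2 i h j hj
      · subst h
        rw [Function.update_self, Function.update_of_ne hj.ne]
        exact horth j hj

/-- expansion -/
theorem expand (q : ℕ → ℝ[X]) (m : ℕ) (h1 : ∀ i < m, (q i).Monic ∧ (q i).natDegree = i) (p : ℝ[X])
    (hp : p.degree < m) : ∃ c : ℕ → ℝ, p = ∑ k ∈ Finset.range m, C (c k) * q k := by
  induction m generalizing p with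
  | zero =>
    refine ⟨fun _ => 0, ?_⟩
    rw [Finset.range_zero, Finset.sum_empty]
    ext k
    rw [Polynomial.degree_lt_iff_coeff_zero] at hp
    rw [hp k (Nat.zero_le k), coeff_zero]
  | succ m ih =>
    have hm := h1 m (Nat.lt_succ_self m)
    have hq : (q m).degree = m := by rw [degree_eq_natDegree hm.1.ne_zero, hm.2]
    have hlt : (p - C (p.coeff m) * q m).degree < m := by
      rw [Polynomial.degree_lt_iff_coeff_zero]
      intro k hk
      rw [coeff_sub, coeff_C_mul]
      rcases hk.lt_or_eq with h | h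
      · have h5 : p.coeff k = 0 := (Polynomial.degree_lt_iff_coeff_zero p (m + 1)).1 hp k h
        have h6 : (q m).coeff k = 0 := coeff_eq_zero_of_natDegree_lt (by rw [hm.2]; exact h)
        rw [h5, h6]
        simp
      · subst h
        have : (q m).coeff m = 1 := by
          have h3 := hm.1.coeff_natDegree
          rwa [hm.2] at h3
        rw [this, mul_one, sub_self]
    obtain ⟨c, hc⟩ := ih (fun i hi => h1 i (hi.trans (Nat.lt_succ_self m))) _ hlt
    refine ⟨Function.update c m (p.coeff m), ?_⟩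
    rw [Finset.sum_range_succ, Function.update_self]
    have h4 : ∑ k ∈ Finset.range m, C (Function.update c m (p.coeff m) k) * q k =
        ∑ k ∈ Finset.range m, C (c k) * q k := by
      apply Finset.sum_congr rfl
      intro k hk
      rw [Function.update_of_ne (Finset.mem_range.1 hk).ne]
    rw [h4, ← hc]
    ring

include hint in
/-- Parseval -/
theorem parseval (q : ℕ → ℝ[X]) (m : ℕ) (h2 : ∀ i < m, ∀ j < i, Lw w (q i * q j) = 0) (c : ℕ → ℝ) :
    Lw w ((∑ k ∈ Finset.range m, C (c k) * q k) * (∑ k ∈ Finset.range m, C (c k) * q k)) =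
      ∑ k ∈ Finset.range m, c k ^ 2 * Lw w (q k * q k) := by
  rw [Finset.sum_mul, L_sum hint]
  apply Finset.sum_congr rfl
  intro k hk
  have hk' := Finset.mem_range.1 hk
  rw [Finset.mul_sum, L_sum hint]
  have h3 : ∀ l ∈ Finset.range m, Lw w (C (c k) * q k * (C (c l) * q l)) =
      if l = k then c k ^ 2 * Lw w (q k * q k) else 0 := by
    intro l hl
    have hl' := Finset.mem_range.1 hl
    have e : C (c k) * q k * (C (c l) * q l) = C (c k) * (C (c l) * (q k * q l)) := by ring
    rw [e, L_C_mul, L_C_mul]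
    split_ifs with h
    · subst h
      ring
    · rcases lt_or_gt_of_ne h with h | h
      · rw [h2 k hk' l h]
        ring
      · rw [mul_comm (q k), h2 l hl' k h]
        ring
  rw [Finset.sum_congr rfl h3, Finset.sum_ite_eq' (Finset.range m) k, if_pos hk]

end

/-- the Lagrange polynomials without denominators -/
noncomputable def lag (m : ℕ) (x : ℕ → ℝ) (i : ℕ) : ℝ[X] := ∏ j ∈ (Finset.range m).erase i, (X - C (x j))

theorem lag_degree (m : ℕ) (x : ℕ → ℝ) {i : ℕ} (hi : i < m) : (lag m x i).degree < m := by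
  have hmon : (lag m x i).Monic := monic_prod_of_monic _ _ fun j _ => monic_X_sub_C (x j)
  rw [degree_eq_natDegree hmon.ne_zero]
  have : (lag m x i).natDegree = m - 1 := by
    unfold lag
    rw [natDegree_prod_of_monic _ _ fun j _ => monic_X_sub_C (x j)]
    simp only [natDegree_X_sub_C, Finset.sum_const, smul_eq_mul, mul_one]
    rw [Finset.card_erase_of_mem (Finset.mem_range.2 hi), Finset.card_range]
  rw [this]
  exact_mod_cast (by omega : m - 1 < m)

theorem lag_eval (m : ℕ) (x : ℕ → ℝ) (i : ℕ) (y : ℝ) :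
    (lag m x i).eval y = ∏ j ∈ (Finset.range m).erase i, (y - x j) := by
  unfold lag
  rw [eval_prod]
  simp

theorem lag_eval_ne (m : ℕ) (x : ℕ → ℝ) {i l : ℕ} (hl : l < m) (hil : l ≠ i) :
    (lag m x i).eval (x l) = 0 := by
  rw [lag_eval]
  exact Finset.prod_eq_zero (Finset.mem_erase.2 ⟨hil, Finset.mem_range.2 hl⟩) (sub_self _)

theorem prod_erase_fin (m : ℕ) (f : ℕ → ℝ) (i : Fin m) :
    ∏ j ∈ (Finset.range m).erase (i : ℕ), f j = ∏ j ∈ ({i}ᶜ : Finset (Fin m)), f j := by
  have e : (Finset.range m).erase (i : ℕ) = ({i}ᶜ : Finset (Fin m)).map Fin.valEmbedding := by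
    ext j
    simp only [Finset.mem_erase, Finset.mem_range, Finset.mem_map, Finset.mem_compl, Finset.mem_singleton,
      Fin.valEmbedding_apply]
    constructor
    · rintro ⟨h1, h2⟩
      exact ⟨⟨j, h2⟩, fun h => h1 (by rw [← h]), rfl⟩
    · rintro ⟨k, h1, rfl⟩
      exact ⟨fun h => h1 (Fin.ext h), k.2⟩
  rw [e, Finset.prod_map]
  rfl

/-- the square of the Vandermonde determinant -/
theorem vdm_sq (m : ℕ) (x : ℕ → ℝ) : (Matrix.vandermonde (fun i : Fin m => x i)).det ^ 2 =
    ∏ i ∈ Finset.range m, ∏ j ∈ (Finset.range m).erase i, |x i - x j| := by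
  rw [Finset.prod_range, ← sq_abs, Matrix.det_vandermonde, Finset.abs_prod]
  simp_rw [Finset.abs_prod]
  rw [sq, ← Finset.prod_mul_distrib]
  simp_rw [← Finset.prod_mul_distrib]
  have h := Finset.prod_prod_Ioi_mul_eq_prod_prod_off_diag
    (fun i j : Fin m => |x i - x j|)
  have h2 : ∏ i : Fin m, ∏ j > i, |x j - x i| * |x j - x i| =
      ∏ i : Fin m, ∏ j > i, |x j - x i| * |x i - x j| := by
    apply Finset.prod_congr rfl
    intro i _
    apply Finset.prod_congr rfl
    intro j _
    rw [abs_sub_comm (x i) (x j)]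
  rw [h2, h]
  apply Finset.prod_congr rfl
  intro i _
  rw [prod_erase_fin]
  apply Finset.prod_congr rfl
  intro j _
  rw [abs_sub_comm]

theorem vdm_ne (m : ℕ) (x : ℕ → ℝ) (hx : Set.InjOn x (Finset.range m)) :
    (Matrix.vandermonde (fun i : Fin m => x i)).det ≠ 0 := by
  rw [Matrix.det_vandermonde_ne_zero_iff]
  intro i j hij
  exact Fin.ext (hx (by simp) (by simp) hij)

end Gram619

open Gram619 in
theorem G2_gram : S_gram := by
  intro w hw hpos hint m x hx
  obtain ⟨q, h1, h2⟩ := exists_orth hw hpos hint m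
  refine ⟨q, h1, ?_⟩
  have hc : ∀ i : Fin m, ∃ c : ℕ → ℝ, lag m x i = ∑ k ∈ Finset.range m, C (c k) * q k :=
    fun i => expand q m h1 _ (lag_degree m x i.2)
  choose c hc using hc
  set T : Matrix (Fin m) (Fin m) ℝ := Matrix.of fun i k => c i k with hT
  set Q : Matrix (Fin m) (Fin m) ℝ := Matrix.of fun k l => (q k).eval (x l) with hQ
  set V := Matrix.vandermonde (fun i : Fin m => x i) with hV
  have hVQ : V.det = Q.det := by
    rw [hV, Matrix.det_eval_matrixOfPolynomials_eq_det_vandermonde (fun i : Fin m => x i)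
      (fun k : Fin m => q k) (fun k => (h1 k k.2).2) (fun k => (h1 k k.2).1), ← Matrix.det_transpose]
    rfl
  have hTQ : T * Q = Matrix.diagonal (fun i : Fin m => ∏ j ∈ (Finset.range m).erase (i : ℕ), (x i - x j)) := by
    ext i l
    rw [Matrix.mul_apply, Matrix.diagonal_apply]
    have h3 : ∑ k : Fin m, T i k * Q k l = (lag m x i).eval (x l) := by
      rw [hc i, eval_finsetSum, Finset.sum_range]
      apply Finset.sum_congr rfl
      intro k _
      rw [eval_mul, eval_C]
      rfl
    rw [h3]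
    split_ifs with h
    · subst h
      rw [lag_eval]
    · exact lag_eval_ne m x l.2 (fun h' => h (Fin.ext h'.symm))
  have hP : T.det ^ 2 = ∏ i ∈ Finset.range m, ∏ j ∈ (Finset.range m).erase i, |x i - x j| := by
    have h3 : T.det * V.det = ∏ i : Fin m, ∏ j ∈ (Finset.range m).erase (i : ℕ), (x i - x j) := by
      rw [hVQ, ← Matrix.det_mul, hTQ, Matrix.det_diagonal]
    have h4 : |T.det| * |V.det| = ∏ i ∈ Finset.range m, ∏ j ∈ (Finset.range m).erase i, |x i - x j| := by
      rw [← abs_mul, h3, Finset.abs_prod, Finset.prod_range]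
      simp_rw [Finset.abs_prod]
    have h5 := vdm_sq m x
    rw [← hV, ← h4, ← sq_abs, sq] at h5
    have h6 : 0 < |V.det| := abs_pos.2 (vdm_ne m x hx)
    have h7 : |V.det| = |T.det| := mul_right_cancel₀ h6.ne' h5
    rw [← h4, h7, ← sq, sq_abs]
  have hh : ∀ k < m, 0 < Lw w (q k * q k) := fun k hk => L_sq_pos hw hpos hint (h1 k hk).1.ne_zero
  set A : Matrix (Fin m) (Fin m) ℝ := T * Matrix.diagonal (fun k : Fin m => √(Lw w (q k * q k))) with hA
  have hdetA : A.det ^ 2 = T.det ^ 2 * ∏ k ∈ Finset.range m, Lw w (q k * q k) := by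
    rw [hA, Matrix.det_mul, Matrix.det_diagonal, mul_pow, ← Finset.prod_pow, Finset.prod_range]
    congr 1
    apply Finset.prod_congr rfl
    intro k _
    exact Real.sq_sqrt (hh k k.2).le
  have hrow : ∀ i : Fin m, A i ⬝ᵥ A i = Lw w (lag m x i * lag m x i) := by
    intro i
    rw [hc i, parseval hint q m h2, Finset.sum_range, dotProduct]
    apply Finset.sum_congr rfl
    intro k _
    rw [hA, Matrix.mul_diagonal]
    have := Real.sq_sqrt (hh k k.2).le
    calc T i k * √(Lw w (q k * q k)) * (T i k * √(Lw w (q k * q k)))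
        = T i k ^ 2 * √(Lw w (q k * q k)) ^ 2 := by ring
      _ = c i k ^ 2 * Lw w (q k * q k) := by rw [this]; rfl
  have hfin := hadamard_ineq A
  rw [hdetA, hP] at hfin
  have e1 : ∏ i ∈ Finset.range m, ∫ y : ℝ, (q i).eval y ^ 2 * w y = ∏ k ∈ Finset.range m, Lw w (q k * q k) := by
    apply Finset.prod_congr rfl
    intro k _
    unfold Lw
    simp_rw [eval_mul, sq]
  have e2 : ∏ i ∈ Finset.range m, ∫ y : ℝ, (∏ j ∈ (Finset.range m).erase i, (y - x j)) ^ 2 * w y =
      ∏ i : Fin m, (A i ⬝ᵥ A i) := by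
    rw [Finset.prod_range]
    apply Finset.prod_congr rfl
    intro i _
    rw [hrow]
    unfold Lw
    simp_rw [eval_mul, lag_eval, sq]
  rw [e1, e2, mul_comm]
  refine hfin.trans ?_
  have h9 : (1 : ℝ) ≤ (m.factorial : ℝ) := by exact_mod_cast m.factorial_pos
  have h10 : 0 ≤ ∏ i : Fin m, (A i ⬝ᵥ A i) :=
    Finset.prod_nonneg fun i _ => Finset.sum_nonneg fun j _ => mul_self_nonneg _
  exact le_mul_of_one_le_left h10 h9

end Pool.Agent.LPB
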